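import Mathlib
import Pool.Agent.W23.PP.Fin7

/-!
Simultaneous almost prime values of polynomials (such as `m^2 + a`, `m^2 + b`) at the elements `m` of an
arbitrary dense set of integers.
-/

set_option autoImplicit false

namespace Pool.Agent.Results.MP_2dba45_nt.DenseSets

open Finset Polynomial

/-- primitive nonconstant integer polynomials of degree at most `D`, coefficients at most `X^M` in
absolute value -/
structure Poly (D M X : ℕ) (F : ℤ[X]) : Prop where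
  prim : F.IsPrimitive
  pos : 1 ≤ F.natDegree
  deg : F.natDegree ≤ D
  ht : ∀ i, |(F.coeff i : ℝ)| ≤ (X : ℝ) ^ M

/-- `F` and `G` have no common factor in `ℚ[x]` -/
def Coprime (F G : ℤ[X]) : Prop :=
  IsCoprime (F.map (Int.castRingHom ℚ)) (G.map (Int.castRingHom ℚ))

/-- systems: nonempty sets of at most `k` such polynomials -/
structure System (k D M X : ℕ) (S : Finset ℤ[X]) : Prop where
  ne : S.Nonempty
  card : S.card ≤ k
  poly : ∀ F ∈ S, Poly D M X F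

/-- families of systems, any polynomial of one system coprime to any polynomial of another one -/
structure Family (k D M X : ℕ) (𝒮 : Finset (Finset ℤ[X])) : Prop where
  sys : ∀ S ∈ 𝒮, System k D M X S
  cop : ∀ S ∈ 𝒮, ∀ T ∈ 𝒮, S ≠ T → ∀ F ∈ S, ∀ G ∈ T, Coprime F G

open Classical in
/-- the number of residues `a` modulo `p` with `p ∣ ∏_{F ∈ S} F(a)` -/
noncomputable def nu (S : Finset ℤ[X]) (p : ℕ) : ℕ :=
  ((range p).filter (fun a : ℕ => (p : ℤ) ∣ ∏ F ∈ S, F.eval (a : ℤ))).card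

open Classical in
/-- the density `V_S = ∏ (1 - ν_S(p)/p)` over the primes `log X ≤ p ≤ X` -/
noncomputable def V (S : Finset ℤ[X]) (X : ℕ) : ℝ :=
  ∏ p ∈ (Icc 1 X).filter (fun p : ℕ => p.Prime ∧ Real.log X ≤ (p : ℝ)), (1 - (nu S p : ℝ) / p)

/-- `|v| = m s`, `1 ≤ m ≤ (log X)^t`, and `s > 1` is a product of at most `r` primes, all
`≥ X^(1/r)` -/
def AlmostPrime (X t r : ℕ) (v : ℤ) : Prop :=
  ∃ m s : ℕ, v.natAbs = m * s ∧ 1 ≤ m ∧ (m : ℝ) ≤ Real.log X ^ t ∧ 1 < s ∧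
    s.primeFactorsList.length ≤ r ∧ ∀ q ∈ s.primeFactors, (X : ℝ) ^ (1 / r : ℝ) ≤ q

open Classical in
/-- the `n ∈ A` for which all `F(n)`, `F ∈ S`, are almost prime -/
noncomputable def Good (A : Finset ℕ) (X t r : ℕ) (S : Finset ℤ[X]) : Finset ℕ :=
  A.filter (fun n : ℕ => ∀ F ∈ S, AlmostPrime X t r (F.eval (n : ℤ)))

theorem sys_iff {k D M X : ℕ} {S : Finset ℤ[X]} (h : System k D M X S) :
    Pool.Agent.W23.PP.Sst k D M X S :=
  ⟨h.ne, h.card, fun F hF => ⟨(h.poly F hF).prim, (h.poly F hF).pos, (h.poly F hF).deg,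
    (h.poly F hF).ht⟩⟩

theorem result (k D M : ℕ) (hk : 1 ≤ k) (hD : 1 ≤ D) :
    -- dense sets: exceptional families are small
    (∃ r : ℕ, 1 ≤ r ∧ ∀ δ : ℝ, 0 < δ → ∃ (c C : ℝ) (t X₀ : ℕ), 0 < c ∧ 0 < C ∧
      ∀ X : ℕ, X₀ ≤ X → ∀ A : Finset ℕ, (∀ n ∈ A, 1 ≤ n ∧ n ≤ X) → δ * X ≤ A.card →
      ∀ 𝒮 : Finset (Finset ℤ[X]), Family k D M X 𝒮 →
      (∀ S ∈ 𝒮, ((Good A X t r S).card : ℝ) < c * V S X * A.card) →
      ∑ S ∈ 𝒮, V S X ≤ C ∧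
        (𝒮.card : ℝ) ≤ C * (Real.log X / Real.log (Real.log X)) ^ (k * D)) ∧
    -- the upper bound of the same order, and the bound for exceptional families is sharp
    (∀ t r : ℕ, 1 ≤ r → ∃ (C : ℝ) (X₀ : ℕ), 0 < C ∧ ∀ X : ℕ, X₀ ≤ X →
      (∀ S : Finset ℤ[X], System k D M X S →
        ((Good (Icc 1 X) X t r S).card : ℝ) ≤ C * V S X * X) ∧
      ∀ 𝒮 : Finset (Finset ℤ[X]), (∀ S ∈ 𝒮, System k D M X S) →
      ∃ A : Finset ℕ, A ⊆ Icc 1 X ∧ (X : ℝ) - A.card ≤ C * (∑ S ∈ 𝒮, V S X) * X ∧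
        ∀ S ∈ 𝒮, Good A X t r S = ∅) := by
  refine ⟨?_, fun t r hr => ?_⟩
  · obtain ⟨r, hr, H⟩ := Pool.Agent.W23.PP.intMain k D M hk hD
    refine ⟨r, hr, fun δ hδ => ?_⟩
    obtain ⟨c, C, t, X₀, hc, hC, H1⟩ := H δ hδ
    refine ⟨c, C, t, X₀, hc, hC, fun X hX A hA hAc 𝒮 h𝒮 hexc => ?_⟩
    exact H1 X hX A hA hAc 𝒮 ⟨fun S hS => sys_iff (h𝒮.sys S hS), h𝒮.cop⟩ hexc
  · obtain ⟨C, X₀, hC, H⟩ := Pool.Agent.W23.PP.intSharp k D M hk hD t r hr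
    refine ⟨C, X₀, hC, fun X hX => ?_⟩
    obtain ⟨h1, h2⟩ := H X hX
    exact ⟨fun S hS => h1 S (sys_iff hS), fun 𝒮 h𝒮 => h2 𝒮 (fun S hS => sys_iff (h𝒮 S hS))⟩

end Pool.Agent.Results.MP_2dba45_nt.DenseSets
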